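import Pool.Agent.H5.DPG.Stmts

/-!
# Row ATL of the board `dpg`: the attractor, as a list
-/

set_option autoImplicit false

namespace Pool.DPG

open Filter TMLib Pool.PG

theorem atl_getD (n : ℕ) (f : ℕ → Bool) (v : ℕ) :
    (msk n f).getD v false = true ↔ v < n ∧ f v = true := by
  unfold msk
  by_cases hv : v < n
  · simp [List.getD, hv]
  · simp [List.getD, hv]

theorem atl_mem (g : Game) (Z : List Bool) (v : ℕ) :
    v ∈ fs g Z ↔ v < g.length ∧ Z.getD v false = true := by
  unfold fs
  rw [Finset.mem_filter, Finset.mem_range]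

/-- An increasing iteration on sets with at most `n` elements is constant after `n` steps. -/
theorem atl_stab (n : ℕ) (Φ : Finset ℕ → Finset ℕ) (F : ℕ → Finset ℕ)
    (hF : ∀ m, F (m + 1) = Φ (F m)) (hs : ∀ m, F m ⊆ F (m + 1)) (h0 : ∀ m, (F m).card ≤ n) :
    F (n + 1) = F n := by
  by_contra hne
  have hne' : ∀ m ≤ n, F (m + 1) ≠ F m := by
    intro m hm he
    apply hne
    have hk : ∀ k, F (m + k + 1) = F (m + k) := by
      intro k
      induction k with
      | zero => exact he
      | succ k ih =>
        have e1 : F (m + (k + 1) + 1) = Φ (F (m + k + 1)) := hF (m + (k + 1))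
        have e2 : F (m + (k + 1)) = Φ (F (m + k)) := hF (m + k)
        rw [e1, e2, ih]
    obtain ⟨k, rfl⟩ := Nat.exists_eq_add_of_le hm
    exact hk k
  have hc : ∀ m ≤ n + 1, m ≤ (F m).card := by
    intro m
    induction m with
    | zero => intro _; exact Nat.zero_le _
    | succ m ih =>
      intro hm
      have h1 := ih (by omega)
      have h2 : (F m).card < (F (m + 1)).card :=
        Finset.card_lt_card ((hs m).ssubset_of_ne (Ne.symm (hne' m (by omega))))
      omega
  have h1 := hc (n + 1) le_rfl
  have h2 := h0 (n + 1)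
  omega

/-- The iterates. -/
def atl_I (i : Bool) (g : Game) (X T : List Bool) (m : ℕ) : List Bool :=
  (ats i g X)^[m] (msk g.length fun v => X.getD v false && T.getD v false)

theorem atl_zero (i : Bool) (g : Game) (X T : List Bool) (v : ℕ) :
    (atl_I i g X T 0).getD v false = true ↔
      v < g.length ∧ X.getD v false = true ∧ T.getD v false = true := by
  change (msk g.length fun v => X.getD v false && T.getD v false).getD v false = true ↔ _
  rw [atl_getD, Bool.and_eq_true]

theorem atl_succ (i : Bool) (g : Game) (X T : List Bool) (m v : ℕ) :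
    (atl_I i g X T (m + 1)).getD v false = true ↔ v < g.length ∧ X.getD v false = true ∧
      ((atl_I i g X T m).getD v false = true ∨
        (if own g v = i then ∃ w ∈ suc g v, (atl_I i g X T m).getD w false = true
          else ∀ w ∈ suc g v, X.getD w false = true → (atl_I i g X T m).getD w false = true)) := by
  have h1 : atl_I i g X T (m + 1) = ats i g X (atl_I i g X T m) := by
    unfold atl_I
    rw [Function.iterate_succ_apply']
  rw [h1]
  generalize atl_I i g X T m = Y
  unfold ats
  rw [atl_getD, Bool.and_eq_true, Bool.or_eq_true]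
  refine and_congr_right fun _ => and_congr_right fun _ => or_congr_right ?_
  split_ifs with h
  · rw [List.any_eq_true]
  · rw [List.all_eq_true]
    refine forall_congr' fun w => imp_congr_right fun _ => ?_
    rw [Bool.or_eq_true, Bool.not_eq_true']
    constructor
    · rintro (h2 | h2) h3
      · rw [h2] at h3
        exact absurd h3 (by decide)
      · exact h2
    · intro h2
      by_cases h3 : X.getD w false = true
      · exact Or.inr (h2 h3)
      · left
        simpa using h3

theorem atl_thm : ATLStmt := by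
  classical
  intro g i X T hX
  have hlenI : ∀ m, (atl_I i g X T m).length = g.length := by
    intro m
    cases m with
    | zero => simp [atl_I, msk]
    | succ m =>
      unfold atl_I
      rw [Function.iterate_succ_apply']
      simp [ats, msk]
  refine ⟨hlenI g.length, ?_⟩
  change IsAtr (own g) (fun v w => w ∈ suc g v) i (fs g X) (fs g X ∩ fs g T)
    (fs g (atl_I i g X T g.length))
  set n := g.length with hn
  -- the iterates are contained in `X` and increase
  have hsub : ∀ m v, (atl_I i g X T m).getD v false = true →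
      v < n ∧ X.getD v false = true := by
    intro m v hv
    cases m with
    | zero => exact ⟨((atl_zero i g X T v).1 hv).1, ((atl_zero i g X T v).1 hv).2.1⟩
    | succ m => exact ⟨((atl_succ i g X T m v).1 hv).1, ((atl_succ i g X T m v).1 hv).2.1⟩
  have hup1 : ∀ m v, (atl_I i g X T m).getD v false = true →
      (atl_I i g X T (m + 1)).getD v false = true := by
    intro m v hv
    exact (atl_succ i g X T m v).2 ⟨(hsub m v hv).1, (hsub m v hv).2, Or.inl hv⟩
  have hup : ∀ m k v, (atl_I i g X T m).getD v false = true →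
      (atl_I i g X T (m + k)).getD v false = true := by
    intro m k v hv
    induction k with
    | zero => exact hv
    | succ k ih => exact hup1 (m + k) v ih
  -- the last iterate is a fixed point
  have hst := atl_stab n
    (fun Y => (Finset.range n).filter fun v => X.getD v false = true ∧ (v ∈ Y ∨
      (if own g v = i then ∃ w ∈ suc g v, w ∈ Y
        else ∀ w ∈ suc g v, X.getD w false = true → w ∈ Y)))
    (fun m => fs g (atl_I i g X T m))
    (by
      intro m
      have hiff : ∀ w, w ∈ fs g (atl_I i g X T m) ↔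
          (atl_I i g X T m).getD w false = true := by
        intro w
        rw [atl_mem]
        exact ⟨fun h => h.2, fun h => ⟨(hsub m w h).1, h⟩⟩
      ext v
      simp only [Finset.mem_filter, Finset.mem_range, hiff]
      rw [atl_mem, atl_succ]
      constructor
      · rintro ⟨h1, _, h2⟩
        exact ⟨h1, h2⟩
      · rintro ⟨h1, h2⟩
        exact ⟨h1, h1, h2⟩)
    (by
      intro m v hv
      rw [atl_mem] at hv ⊢
      exact ⟨hv.1, hup1 m v hv.2⟩)
    (by
      intro m
      refine (Finset.card_filter_le _ _).trans ?_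
      rw [Finset.card_range])
  have hdown : ∀ v, (atl_I i g X T (n + 1)).getD v false = true →
      (atl_I i g X T n).getD v false = true := by
    intro v hv
    have h1 : v ∈ fs g (atl_I i g X T (n + 1)) := (atl_mem _ _ _).2 ⟨(hsub _ v hv).1, hv⟩
    rw [hst] at h1
    exact ((atl_mem _ _ _).1 h1).2
  -- the rank
  set ρ : ℕ → ℕ := fun v => if h : ∃ m, (atl_I i g X T m).getD v false = true then
    Nat.find h else 0 with hρ
  have hρle : ∀ m v, (atl_I i g X T m).getD v false = true → ρ v ≤ m := by
    intro m v hv
    have hex : ∃ m, (atl_I i g X T m).getD v false = true := ⟨m, hv⟩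
    rw [hρ]
    simp only
    rw [dif_pos hex]
    exact Nat.find_min' hex hv
  -- the step to the vertex `v`
  have hstep : ∀ v ∈ fs g (atl_I i g X T n), v ∉ fs g X ∩ fs g T → ∃ k, ρ v = k + 1 ∧ k < n ∧
      (if own g v = i then ∃ w ∈ suc g v, (atl_I i g X T k).getD w false = true
          else ∀ w ∈ suc g v, X.getD w false = true →
            (atl_I i g X T k).getD w false = true) := by
    intro v hv hvU
    have hv1 := ((atl_mem _ _ _).1 hv).2
    have hex : ∃ m, (atl_I i g X T m).getD v false = true := ⟨n, hv1⟩
    have hρv : ρ v = Nat.find hex := by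
      rw [hρ]
      simp only
      rw [dif_pos hex]
    have hspec := Nat.find_spec hex
    have hlen := hρle n v hv1
    rw [← hρv] at hspec
    rcases Nat.eq_zero_or_pos (ρ v) with h0 | h0
    · exfalso
      apply hvU
      rw [h0, atl_zero] at hspec
      rw [Finset.mem_inter, atl_mem, atl_mem]
      exact ⟨⟨hspec.1, hspec.2.1⟩, hspec.1, hspec.2.2⟩
    · obtain ⟨k, hk⟩ := Nat.exists_eq_succ_of_ne_zero h0.ne'
      refine ⟨k, hk, by omega, ?_⟩
      rw [hk, Nat.succ_eq_add_one, atl_succ] at hspec
      rcases hspec.2.2 with h2 | h2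
      · have h3 := hρle k v h2
        omega
      · exact h2
  have hα : ∀ v, ∃ w, v ∈ fs g (atl_I i g X T n) → v ∉ fs g X ∩ fs g T → own g v = i →
      w ∈ fs g (atl_I i g X T n) ∧ w ∈ suc g v ∧ ρ w < ρ v := by
    intro v
    by_cases hc : v ∈ fs g (atl_I i g X T n) ∧ v ∉ fs g X ∩ fs g T ∧ own g v = i
    · obtain ⟨hv, hvU, ho⟩ := hc
      obtain ⟨k, hk, hkn, h3⟩ := hstep v hv hvU
      rw [if_pos ho] at h3
      obtain ⟨w, hw, hwk⟩ := h3
      refine ⟨w, fun _ _ _ => ⟨?_, hw, ?_⟩⟩
      · rw [atl_mem]
        refine ⟨(hsub k w hwk).1, ?_⟩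
        have := hup k (n - k) w hwk
        rwa [show k + (n - k) = n by omega] at this
      · have := hρle k w hwk
        omega
    · exact ⟨0, fun h1 h2 h3 => absurd ⟨h1, h2, h3⟩ hc⟩
  choose α hα using hα
  refine ⟨?_, ?_, ⟨α, ρ, ?_, ?_⟩, ?_, ?_⟩
  · intro v hv
    rw [Finset.mem_inter, atl_mem, atl_mem] at hv
    rw [atl_mem]
    refine ⟨hv.1.1, ?_⟩
    have := hup 0 n v ((atl_zero i g X T v).2 ⟨hv.1.1, hv.1.2, hv.2.2⟩)
    rwa [zero_add] at this
  · intro v hv
    rw [atl_mem] at hv ⊢
    exact ⟨hv.1, (hsub n v hv.2).2⟩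
  · intro v hv hvU ho
    exact hα v hv hvU ho
  · intro v hv hvU ho w hw hE
    obtain ⟨k, hk, hkn, h3⟩ := hstep v hv hvU
    rw [if_neg ho] at h3
    have hwk := h3 w hE ((atl_mem _ _ _).1 hw).2
    refine ⟨?_, ?_⟩
    · rw [atl_mem]
      refine ⟨(hsub k w hwk).1, ?_⟩
      have := hup k (n - k) w hwk
      rwa [show k + (n - k) = n by omega] at this
    · have := hρle k w hwk
      omega
  · intro v hv hvA ho w _ hE hwA
    apply hvA
    rw [atl_mem] at hv hwA ⊢
    refine ⟨hv.1, hdown v ?_⟩
    rw [atl_succ]
    refine ⟨hv.1, hv.2, Or.inr ?_⟩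
    rw [if_pos ho]
    exact ⟨w, hE, hwA.2⟩
  · intro v hv hvA ho
    by_contra hcon
    push Not at hcon
    apply hvA
    rw [atl_mem] at hv ⊢
    refine ⟨hv.1, hdown v ?_⟩
    rw [atl_succ]
    refine ⟨hv.1, hv.2, Or.inr ?_⟩
    rw [if_neg ho]
    intro w hw hXw
    by_contra hwA
    have hwn : w < n := by
      by_contra hlt
      have : X.getD w false = false := List.getD_eq_default _ _ (by omega)
      rw [this] at hXw
      exact absurd hXw (by decide)
    refine hcon w ((atl_mem _ _ _).2 ⟨hwn, hXw⟩) ?_ hw
    intro h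
    exact hwA ((atl_mem _ _ _).1 h).2

end Pool.DPG
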